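import Pool.Agent.H38.AB.Targets
import Pool.Agent.H48.AE.C

/-!
# MP_7ecdd4_nt, board `aab_modules`, module TOR: torsion in the unit group modulo `g`
-/

set_option autoImplicit false

namespace Pool.Agent.H96.AB

open Pool.Agent.H38.RB Pool.Agent.H38.PS Pool.Agent.H82.RD Pool.Agent.H38.AB Pool.Agent.H48.AE

theorem rt_index {G : Type} [CommGroup G] [Finite G] (H : Subgroup G) [IsCyclic H] {j : ℕ}
    (hj : 1 ≤ j) : rt G j ≤ j * H.index := by
  classical
  have : Fintype G := Fintype.ofFinite G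
  have : Fintype (G ⧸ H) := Fintype.ofFinite _
  have : Fintype H := Fintype.ofFinite _
  have hrt : rt G j = ((Finset.univ : Finset G).filter (fun u => u ^ j = 1)).card := by
    unfold rt
    rw [Nat.card_eq_fintype_card, Fintype.card_subtype]
  rw [hrt]
  have h1 : ((Finset.univ : Finset G).filter (fun u => u ^ j = 1)).card ≤
      j * (((Finset.univ : Finset G).filter (fun u => u ^ j = 1)).image
        (fun u => (QuotientGroup.mk u : G ⧸ H))).card := by
    apply Finset.card_le_mul_card_image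
    intro c hc
    obtain ⟨u0, hu0, rfl⟩ := Finset.mem_image.1 hc
    refine le_trans ?_ (IsCyclic.card_pow_eq_one_le (α := H) hj)
    refine Finset.card_le_card_of_surjOn (fun h : H => u0 * (h : G)) ?_
    intro u hu
    rw [Finset.mem_coe, Finset.mem_filter, Finset.mem_filter] at hu
    obtain ⟨⟨-, hu1⟩, hu2⟩ := hu
    have h2 : u0⁻¹ * u ∈ H := QuotientGroup.eq.1 hu2.symm
    refine ⟨⟨u0⁻¹ * u, h2⟩, ?_, mul_inv_cancel_left _ _⟩
    rw [Finset.mem_coe, Finset.mem_filter]
    refine ⟨Finset.mem_univ _, Subtype.ext ?_⟩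
    have h3 : u0 ^ j = 1 := (Finset.mem_filter.1 hu0).2
    show (u0⁻¹ * u) ^ j = 1
    rw [mul_pow, inv_pow, h3, hu1, inv_one, one_mul]
  refine h1.trans (Nat.mul_le_mul_left _ ?_)
  refine (Finset.card_le_univ _).trans ?_
  rw [← Nat.card_eq_fintype_card]
  rfl

theorem rt_two_sharp (a j : ℕ) (hj : 1 ≤ j) : rt (ZMod (2 ^ a))ˣ j ≤ 2 * j := by
  have : NeZero (2 ^ a) := ⟨by positivity⟩
  rcases Nat.lt_or_ge a 2 with ha | ha
  · have hc : Nat.card (ZMod (2 ^ a))ˣ ≤ 1 := by
      rw [Nat.card_eq_fintype_card, ZMod.card_units_eq_totient]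
      interval_cases a
      · simp
      · simp
    have h1 : rt (ZMod (2 ^ a))ˣ j ≤ Nat.card (ZMod (2 ^ a))ˣ :=
      Nat.card_le_card_of_injective _ Subtype.val_injective
    omega
  · obtain ⟨n, rfl⟩ : ∃ n, a = n + 2 := ⟨a - 2, by omega⟩
    have hcop : Nat.Coprime 5 (2 ^ (n + 2)) := Nat.Coprime.pow_right _ (by norm_num)
    obtain ⟨f, hf⟩ : ∃ f : (ZMod (2 ^ (n + 2)))ˣ, f = ZMod.unitOfCoprime 5 hcop := ⟨_, rfl⟩
    have hf5 : (f : ZMod (2 ^ (n + 2))) = 5 := by
      rw [hf, ZMod.coe_unitOfCoprime]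
      norm_num
    have hord : orderOf f = 2 ^ n := by
      rw [← orderOf_units, hf5, ZMod.orderOf_five]
    have hcard : Nat.card (ZMod (2 ^ (n + 2)))ˣ = 2 ^ (n + 1) := by
      rw [Nat.card_eq_fintype_card, ZMod.card_units_eq_totient,
        Nat.totient_prime_pow Nat.prime_two (by omega)]
      simp
    have hind : (Subgroup.zpowers f).index = 2 := by
      have h1 := (Subgroup.zpowers f).card_mul_index
      rw [Nat.card_zpowers, hord, hcard] at h1
      exact Nat.eq_of_mul_eq_mul_left (show 0 < 2 ^ n by positivity) (h1.trans (pow_succ 2 n))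
    have h2 := rt_index (Subgroup.zpowers f) hj
    rw [hind] at h2
    omega

theorem rt_le_pow (v : ℕ) (hv : 1 ≤ v) (g : ℕ) :
    g ≠ 0 → rt (ZMod g)ˣ v ≤ (2 * v) ^ g.primeFactors.card := by
  induction g using Nat.recOnPosPrimePosCoprime with
  | prime_pow p n hp hn =>
    intro _
    rw [Nat.primeFactors_prime_pow hn.ne' hp, Finset.card_singleton, pow_one]
    by_cases h : p = 2
    · subst h
      exact rt_two_sharp n v hv
    · exact (rt_odd p n v hp h hv).trans (by omega)
  | zero => intro h; exact absurd rfl h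
  | one =>
    intro _
    have h1 : rt (ZMod 1)ˣ v ≤ 1 := by
      unfold rt
      have : Subsingleton (ZMod 1)ˣ := ⟨fun a b => Units.ext (Subsingleton.elim _ _)⟩
      have : Subsingleton {u : (ZMod 1)ˣ // u ^ v = 1} := inferInstance
      exact Finite.card_le_one_iff_subsingleton.2 this
    simpa using h1
  | coprime m n hm hn hmn ihm ihn =>
    intro _
    have e : (ZMod (m * n))ˣ ≃* (ZMod m)ˣ × (ZMod n)ˣ :=
      (Units.mapEquiv (ZMod.chineseRemainder hmn).toMulEquiv).trans MulEquiv.prodUnits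
    rw [rt_congr e, rt_prod, hmn.primeFactors_mul,
      Finset.card_union_of_disjoint hmn.disjoint_primeFactors, pow_add]
    exact Nat.mul_le_mul (ihm (by omega)) (ihn (by omega))

theorem pf_TOR : T_TOR := by
  intro g v _ hv
  have h1 : ((Finset.univ : Finset (ZMod g)ˣ).filter (fun u => u ^ v = 1)).card =
      rt (ZMod g)ˣ v := by
    unfold rt
    rw [Nat.card_eq_fintype_card, Fintype.card_subtype]
  have h2 := rt_le_pow v hv g (NeZero.ne g)
  rw [← h1] at h2
  refine le_trans (le_of_eq ?_) h2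
  congr 1

end Pool.Agent.H96.AB
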